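import Pool.Agent.J6H68.Nut.Stm

/-!
# Five regular nut graphs joined in the pattern of a pentagon, and two switchings
-/

set_option autoImplicit false
set_option linter.unusedSectionVars false

namespace Pool.Agent.J6H69.Nut

open Finset Pool.Agent.TH296.Nut

section switch

variable {V : Type} [DecidableEq V]

/-- the indicator of a point -/
def dl (a i : V) : ℝ := if i = a then 1 else 0

theorem dl_self (a : V) : dl a a = 1 := if_pos rfl

theorem dl_ne {a i : V} (h : i ≠ a) : dl a i = 0 := if_neg h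

/-- switching: remove `a b`, `c d`, add `a c`, `b d` -/
def sx (a b c d i j : V) : ℝ :=
  (dl a i - dl d i) * (dl c j - dl b j) + (dl c i - dl b i) * (dl a j - dl d j)

variable [Fintype V]

theorem sum_dl (a : V) (f : V → ℝ) : ∑ j, dl a j * f j = f a := by
  simp [dl]

theorem sum_sx (a b c d : V) (f : V → ℝ) (i : V) :
    ∑ j, sx a b c d i j * f j =
      (dl a i - dl d i) * (f c - f b) + (dl c i - dl b i) * (f a - f d) := by
  have h : ∀ j, sx a b c d i j * f j =
      (dl a i - dl d i) * (dl c j * f j) - (dl a i - dl d i) * (dl b j * f j) +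
      ((dl c i - dl b i) * (dl a j * f j) - (dl c i - dl b i) * (dl d j * f j)) := by
    intro j
    unfold sx
    ring
  rw [Finset.sum_congr rfl fun j _ => h j, Finset.sum_add_distrib, Finset.sum_sub_distrib,
    Finset.sum_sub_distrib, ← Finset.mul_sum, ← Finset.mul_sum, ← Finset.mul_sum,
    ← Finset.mul_sum, sum_dl, sum_dl, sum_dl, sum_dl]
  ring

/-- weights of a regular graph -/
structure Gr (V : Type) [Fintype V] (ρ : ℝ) (W : V → V → ℝ) : Prop where
  zo : ∀ v w, W v w = 0 ∨ W v w = 1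
  symm : ∀ v w, W v w = W w v
  diag : ∀ v, W v v = 0
  deg : ∀ v, ∑ w, W v w = ρ

theorem Gr.switch {ρ : ℝ} {W : V → V → ℝ} (h : Gr V ρ W) {a b c d : V} (hab : W a b = 1)
    (hcd : W c d = 1) (hac : W a c = 0) (hbd : W b d = 0) (nab : a ≠ b) (nac : a ≠ c)
    (nad : a ≠ d) (nbc : b ≠ c) (nbd : b ≠ d) (ncd : c ≠ d) :
    Gr V ρ (fun i j => W i j + sx a b c d i j) := by
  have hba : W b a = 1 := by rw [h.symm, hab]
  have hdc : W d c = 1 := by rw [h.symm, hcd]
  have hca : W c a = 0 := by rw [h.symm, hac]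
  have hdb : W d b = 0 := by rw [h.symm, hbd]
  have ha := h.diag a
  have hb := h.diag b
  have hc := h.diag c
  have hd := h.diag d
  have z : ∀ i j, (W i j = 0 ∨ W i j = 1) := h.zo
  refine ⟨?_, ?_, ?_, ?_⟩
  · intro i j
    have hz := z i j
    rcases eq_or_ne i a with rfl | i1
    · have e : sx i b c d i j = dl c j - dl b j := by
        unfold sx
        rw [dl_self, dl_ne nad, dl_ne nac, dl_ne nab]
        ring
      rw [e]
      rcases eq_or_ne j c with rfl | j1
      · rw [dl_self, dl_ne nbc.symm, hac]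
        norm_num
      rcases eq_or_ne j b with rfl | j2
      · rw [dl_self, dl_ne nbc, hab]
        norm_num
      rw [dl_ne j1, dl_ne j2, sub_zero, add_zero]
      exact hz
    rcases eq_or_ne i d with rfl | i2
    · have e : sx a b c i i j = dl b j - dl c j := by
        unfold sx
        rw [dl_self, dl_ne i1, dl_ne ncd.symm, dl_ne nbd.symm]
        ring
      rw [e]
      rcases eq_or_ne j c with rfl | j1
      · rw [dl_self, dl_ne nbc.symm, hdc]
        norm_num
      rcases eq_or_ne j b with rfl | j2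
      · rw [dl_self, dl_ne nbc, hdb]
        norm_num
      rw [dl_ne j1, dl_ne j2, sub_zero, add_zero]
      exact hz
    rcases eq_or_ne i c with rfl | i3
    · have e : sx a b i d i j = dl a j - dl d j := by
        unfold sx
        rw [dl_self, dl_ne i1, dl_ne i2, dl_ne nbc.symm]
        ring
      rw [e]
      rcases eq_or_ne j a with rfl | j1
      · rw [dl_self, dl_ne nad, hca]
        norm_num
      rcases eq_or_ne j d with rfl | j2
      · rw [dl_self, dl_ne nad.symm, hcd]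
        norm_num
      rw [dl_ne j1, dl_ne j2, sub_zero, add_zero]
      exact hz
    rcases eq_or_ne i b with rfl | i4
    · have e : sx a i c d i j = dl d j - dl a j := by
        unfold sx
        rw [dl_self, dl_ne i1, dl_ne i2, dl_ne i3]
        ring
      rw [e]
      rcases eq_or_ne j a with rfl | j1
      · rw [dl_self, dl_ne nad, hba]
        norm_num
      rcases eq_or_ne j d with rfl | j2
      · rw [dl_self, dl_ne nad.symm, hbd]
        norm_num
      rw [dl_ne j1, dl_ne j2, sub_zero, add_zero]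
      exact hz
    have e : sx a b c d i j = 0 := by
      unfold sx
      rw [dl_ne i1, dl_ne i2, dl_ne i3, dl_ne i4]
      ring
    rw [e, add_zero]
    exact hz
  · intro i j
    rw [h.symm i j]
    unfold sx
    ring
  · intro i
    have : sx a b c d i i = 0 := by
      unfold sx
      rcases eq_or_ne i a with rfl | i1
      · rw [dl_self, dl_ne nad, dl_ne nac, dl_ne nab]
        ring
      rcases eq_or_ne i d with rfl | i2
      · rw [dl_self, dl_ne i1, dl_ne ncd.symm, dl_ne nbd.symm]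
        ring
      rw [dl_ne i1, dl_ne i2]
      ring
    rw [this, h.diag]
    norm_num
  · intro i
    rw [Finset.sum_add_distrib, h.deg]
    have := sum_sx a b c d (fun _ => 1) i
    simp only [mul_one] at this
    rw [this]
    ring

end switch

section base

variable {V : Fin 5 → Type}

/-- adjacency in the pentagon -/
def adj (i j : Fin 5) : ℝ := if j = i + 1 ∨ i = j + 1 then 1 else 0

theorem adj_self (i : Fin 5) : adj i i = 0 := by
  fin_cases i <;> simp [adj]

theorem adj_symm (i j : Fin 5) : adj i j = adj j i := by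
  simp only [adj, or_comm]

theorem adj_zo (i j : Fin 5) : adj i j = 0 ∨ adj i j = 1 := by
  unfold adj
  split_ifs
  · exact Or.inr rfl
  · exact Or.inl rfl

theorem adj0 (f : Fin 5 → ℝ) : ∑ j, adj 0 j * f j = f 4 + f 1 := by
  rw [Fin.sum_univ_five, show adj 0 0 = 0 from if_neg (by decide), show adj 0 1 = 1 from if_pos (by decide), show adj 0 2 = 0 from if_neg (by decide), show adj 0 3 = 0 from if_neg (by decide), show adj 0 4 = 1 from if_pos (by decide)]
  ring

theorem adj1 (f : Fin 5 → ℝ) : ∑ j, adj 1 j * f j = f 0 + f 2 := by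
  rw [Fin.sum_univ_five, show adj 1 0 = 1 from if_pos (by decide), show adj 1 1 = 0 from if_neg (by decide), show adj 1 2 = 1 from if_pos (by decide), show adj 1 3 = 0 from if_neg (by decide), show adj 1 4 = 0 from if_neg (by decide)]
  ring

theorem adj2 (f : Fin 5 → ℝ) : ∑ j, adj 2 j * f j = f 1 + f 3 := by
  rw [Fin.sum_univ_five, show adj 2 0 = 0 from if_neg (by decide), show adj 2 1 = 1 from if_pos (by decide), show adj 2 2 = 0 from if_neg (by decide), show adj 2 3 = 1 from if_pos (by decide), show adj 2 4 = 0 from if_neg (by decide)]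
  ring

theorem adj3 (f : Fin 5 → ℝ) : ∑ j, adj 3 j * f j = f 2 + f 4 := by
  rw [Fin.sum_univ_five, show adj 3 0 = 0 from if_neg (by decide), show adj 3 1 = 0 from if_neg (by decide), show adj 3 2 = 1 from if_pos (by decide), show adj 3 3 = 0 from if_neg (by decide), show adj 3 4 = 1 from if_pos (by decide)]
  ring

theorem adj4 (f : Fin 5 → ℝ) : ∑ j, adj 4 j * f j = f 3 + f 0 := by
  rw [Fin.sum_univ_five, show adj 4 0 = 1 from if_pos (by decide), show adj 4 1 = 0 from if_neg (by decide), show adj 4 2 = 0 from if_neg (by decide), show adj 4 3 = 1 from if_pos (by decide), show adj 4 4 = 0 from if_neg (by decide)]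
  ring

open Classical in
/-- the join of five graphs in the pattern of the pentagon -/
noncomputable def bw (W : ∀ i, V i → V i → ℝ) (p q : Σ i, V i) : ℝ :=
  adj p.1 q.1 + if h : p.1 = q.1 then W q.1 (h ▸ p.2) q.2 else 0

theorem bw_same (W : ∀ i, V i → V i → ℝ) (i : Fin 5) (a b : V i) :
    bw W ⟨i, a⟩ ⟨i, b⟩ = W i a b := by
  unfold bw
  rw [dif_pos rfl, adj_self, zero_add]

theorem bw_ne (W : ∀ i, V i → V i → ℝ) {i j : Fin 5} (h : i ≠ j) (a : V i) (b : V j) :
    bw W ⟨i, a⟩ ⟨j, b⟩ = adj i j := by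
  unfold bw
  rw [dif_neg h, add_zero]

variable [∀ i, Fintype (V i)]

theorem sum_bw (W : ∀ i, V i → V i → ℝ) (i : Fin 5) (a : V i) (y : (Σ i, V i) → ℝ) :
    ∑ q, bw W ⟨i, a⟩ q * y q =
      ∑ b, W i a b * y ⟨i, b⟩ + ∑ j, adj i j * ∑ b, y ⟨j, b⟩ := by
  classical
  rw [Fintype.sum_sigma]
  have h : ∀ j, ∑ b, bw W ⟨i, a⟩ ⟨j, b⟩ * y ⟨j, b⟩ =
      (if j = i then ∑ b, W i a b * y ⟨i, b⟩ else 0) + adj i j * ∑ b, y ⟨j, b⟩ := by
    intro j
    by_cases hj : j = i
    · subst hj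
      simp only [bw_same, adj_self, if_true, zero_mul, add_zero]
    · rw [if_neg hj, zero_add, Finset.mul_sum]
      exact Finset.sum_congr rfl fun b _ => by rw [bw_ne W (Ne.symm hj)]
  rw [Finset.sum_congr rfl fun j _ => h j, Finset.sum_add_distrib, Finset.sum_ite_eq',
    if_pos (Finset.mem_univ _)]

theorem penta (t u : Fin 5 → ℝ) (h0 : ∀ i, 0 ≤ t i) (h1 : ∀ i, t i < 1)
    (h : ∀ i, t i * u i + ∑ j, adj i j * u j = 0) : ∀ i, u i = 0 := by
  have e0 := h 0
  have e1 := h 1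
  have e2 := h 2
  have e3 := h 3
  have e4 := h 4
  rw [adj0] at e0
  rw [adj1] at e1
  rw [adj2] at e2
  rw [adj3] at e3
  rw [adj4] at e4
  have lt1 : ∀ i j, t i * t j < 1 := fun i j => by nlinarith [h0 i, h0 j, h1 i, h1 j]
  have hA : 0 < 1 + t 2 - t 0 * t 4 := by linarith [lt1 0 4, h0 2]
  have hB : 0 < 1 + t 4 - t 1 * t 2 := by linarith [lt1 1 2, h0 4]
  have hC : 0 < 1 + t 0 - t 2 * t 3 := by linarith [lt1 2 3, h0 0]
  have hD : 0 < 1 + t 1 + t 3 - t 1 * t 2 * t 3 := by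
    have h2 : t 1 * t 2 * t 3 ≤ t 3 := by
      have := lt1 1 2
      have := h0 3
      nlinarith
    linarith [h0 1]
  have E1 : u 0 * (1 + t 2 - t 0 * t 4) = u 1 * (1 + t 4 - t 1 * t 2) := by
    linear_combination -e2 + e4 + t 2 * e1 - t 4 * e0
  have E2 : u 0 * (1 + t 0 - t 2 * t 3) + u 1 * (1 + t 1 + t 3 - t 1 * t 2 * t 3) = 0 := by
    linear_combination -e3 + t 3 * e2 + (1 - t 2 * t 3) * e1 + e0
  have z0 : u 0 = 0 := by
    have h2 : u 0 * ((1 + t 0 - t 2 * t 3) * (1 + t 4 - t 1 * t 2) +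
        (1 + t 1 + t 3 - t 1 * t 2 * t 3) * (1 + t 2 - t 0 * t 4)) = 0 := by
      linear_combination (1 + t 4 - t 1 * t 2) * E2 + (1 + t 1 + t 3 - t 1 * t 2 * t 3) * E1
    rcases mul_eq_zero.1 h2 with h3 | h3
    · exact h3
    · exfalso
      have := mul_pos hC hB
      have := mul_pos hD hA
      linarith
  have z1 : u 1 = 0 := by
    rw [z0, zero_mul] at E1
    rcases mul_eq_zero.1 E1.symm with h3 | h3
    · exact h3
    · exact absurd h3 hB.ne'
  have z2 : u 2 = 0 := by rw [z0, z1] at e1; linarith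
  have z4 : u 4 = 0 := by rw [z0, z1] at e0; linarith
  have z3 : u 3 = 0 := by rw [z1, z2] at e2; linarith
  intro i
  match i with
  | 0 => exact z0
  | 1 => exact z1
  | 2 => exact z2
  | 3 => exact z3
  | 4 => exact z4

end base

theorem pair {V : Type} [Fintype V] [DecidableEq V] {ρ : ℕ} {W : V → V → ℝ} {x : V → ℝ}
    (h : NW V ρ W x) (hρ : 0 < ρ) (g : V → ℝ) (C D : ℝ) (s : V)
    (hh : ∀ a, ∑ b, W a b * g b + C + dl s a * D = 0) : D = 0 := by
  have h1 : ∑ a, x a * (∑ b, W a b * g b + C + dl s a * D) = 0 :=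
    Finset.sum_eq_zero fun a _ => by rw [hh a, mul_zero]
  have h2 : ∑ a, x a * (∑ b, W a b * g b + C + dl s a * D) =
      ∑ b, g b * ∑ a, W b a * x a + C * ∑ a, x a + D * ∑ a, dl s a * x a := by
    have e : ∑ b, g b * ∑ a, W b a * x a = ∑ a, x a * ∑ b, W a b * g b := by
      simp only [Finset.mul_sum]
      rw [Finset.sum_comm]
      refine Finset.sum_congr rfl fun a _ => Finset.sum_congr rfl fun b _ => ?_
      rw [h.symm b a]
      ring
    rw [e, Finset.mul_sum, Finset.mul_sum, ← Finset.sum_add_distrib, ← Finset.sum_add_distrib]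
    exact Finset.sum_congr rfl fun a _ => by ring
  rw [h2, sum0 h hρ, sum_dl] at h1
  simp only [h.ker, mul_zero, Finset.sum_const_zero, zero_add] at h1
  rcases mul_eq_zero.1 h1 with h3 | h3
  · exact h3
  · exact absurd h3 (h.nz s)

theorem exists_edge {V : Type} [Fintype V] {ρ : ℕ} {W : V → V → ℝ} {x : V → ℝ}
    (h : NW V ρ W x) (hρ : 0 < ρ) (v : V) : ∃ w, W v w = 1 := by
  by_contra hcon
  push Not at hcon
  have h1 := h.deg v
  rw [Finset.sum_eq_zero fun w _ => (h.zo v w).resolve_right (hcon w)] at h1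
  have : (0 : ℝ) < ρ := by exact_mod_cast hρ
  linarith

theorem exists_nonedge {V : Type} [Fintype V] {ρ : ℕ} {W : V → V → ℝ} {x : V → ℝ}
    (h : NW V ρ W x) (hρ : ρ + 2 ≤ Fintype.card V) (v : V) : ∃ w, w ≠ v ∧ W v w = 0 := by
  classical
  by_contra hcon
  push Not at hcon
  have h1 : ∑ w ∈ univ.erase v, W v w ≤ ρ := by
    rw [← h.deg v]
    refine Finset.sum_le_sum_of_subset_of_nonneg (Finset.erase_subset _ _) fun i _ _ => ?_
    rcases h.zo v i with e | e <;> rw [e] <;> norm_num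
  have h2 : ∑ w ∈ univ.erase v, W v w = ∑ w ∈ univ.erase v, (1 : ℝ) :=
    Finset.sum_congr rfl fun w hw => (h.zo v w).resolve_left (hcon w (Finset.ne_of_mem_erase hw))
  rw [h2, Finset.sum_const, Finset.card_erase_of_mem (Finset.mem_univ v), Finset.card_univ,
    nsmul_eq_mul, mul_one] at h1
  have h3 : Fintype.card V - 1 ≤ ρ := by exact_mod_cast h1
  omega

section sig

variable {V : Fin 5 → Type} [DecidableEq (Σ i, V i)] [∀ i, DecidableEq (V i)]

theorem dl_sn {i j : Fin 5} (h : j ≠ i) (a : V i) (b : V j) :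
    dl (⟨i, a⟩ : Σ i, V i) ⟨j, b⟩ = 0 := dl_ne fun e => h (congrArg Sigma.fst e)

theorem dl_ss {i : Fin 5} (a b : V i) : dl (⟨i, a⟩ : Σ i, V i) ⟨i, b⟩ = dl a b := by
  unfold dl
  simp

theorem sg_ne {i j : Fin 5} (h : i ≠ j) (a : V i) (b : V j) :
    (⟨i, a⟩ : Σ i, V i) ≠ ⟨j, b⟩ := fun e => h (congrArg Sigma.fst e)

end sig

section main

variable {V : Fin 5 → Type} [∀ i, Fintype (V i)]

theorem base_gr (ρ : ℕ) (r : Fin 5 → ℕ) (W : ∀ i, V i → V i → ℝ) (x : ∀ i, V i → ℝ)
    (h : ∀ i, NW (V i) (r i) (W i) (x i))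
    (hρ : ∀ i, (r i : ℝ) + ∑ j, adj i j * Fintype.card (V j) = ρ) :
    Gr (Σ i, V i) ρ (bw W) := by
  refine ⟨?_, ?_, ?_, ?_⟩
  · rintro ⟨i, a⟩ ⟨j, b⟩
    rcases eq_or_ne i j with rfl | hij
    · rw [bw_same]
      exact (h i).zo a b
    · rw [bw_ne W hij]
      exact adj_zo i j
  · rintro ⟨i, a⟩ ⟨j, b⟩
    rcases eq_or_ne i j with rfl | hij
    · rw [bw_same, bw_same]
      exact (h i).symm a b
    · rw [bw_ne W hij, bw_ne W hij.symm]
      exact adj_symm i j
  · rintro ⟨i, a⟩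
    rw [bw_same]
    exact (h i).diag a
  · rintro ⟨i, a⟩
    have h1 := sum_bw W i a (fun _ => 1)
    simp only [mul_one, Finset.sum_const, Finset.card_univ, nsmul_eq_mul] at h1
    rw [h1, (h i).deg, hρ]

theorem five (ρ : ℕ) (r : Fin 5 → ℕ) (W : ∀ i, V i → V i → ℝ) (x : ∀ i, V i → ℝ)
    (h : ∀ i, NW (V i) (r i) (W i) (x i)) (r1 : ∀ i, 0 < r i)
    (rn : ∀ i, r i + 2 ≤ Fintype.card (V i))
    (hρ : ∀ i, (r i : ℝ) + ∑ j, adj i j * Fintype.card (V j) = ρ) :
    ∃ (W' : (Σ i, V i) → (Σ i, V i) → ℝ) (x' : (Σ i, V i) → ℝ), NW (Σ i, V i) ρ W' x' := by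
  classical
  have hcard : ∀ i, 0 < Fintype.card (V i) := fun i => by have := rn i; omega
  have hne : ∀ i, Nonempty (V i) := fun i => Fintype.card_pos_iff.1 (hcard i)
  obtain ⟨v⟩ := hne 0
  obtain ⟨v', hvv, hv0⟩ := exists_nonedge (h 0) (rn 0) v
  obtain ⟨w⟩ := hne 0
  obtain ⟨w', hw⟩ := exists_edge (h 0) (r1 0) w
  obtain ⟨s1⟩ := hne 1
  obtain ⟨s2⟩ := hne 2
  obtain ⟨s3⟩ := hne 3
  obtain ⟨s4⟩ := hne 4
  have hww : w ≠ w' := by
    rintro rfl
    rw [(h 0).diag] at hw
    exact zero_ne_one hw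
  -- the points
  set A : Σ i, V i := ⟨0, v⟩ with hA
  set A' : Σ i, V i := ⟨0, v'⟩ with hA'
  set Q : Σ i, V i := ⟨0, w⟩ with hQ
  set Q' : Σ i, V i := ⟨0, w'⟩ with hQ'
  set B1 : Σ i, V i := ⟨1, s1⟩ with hB1
  set B2 : Σ i, V i := ⟨2, s2⟩ with hB2
  set B3 : Σ i, V i := ⟨3, s3⟩ with hB3
  set B4 : Σ i, V i := ⟨4, s4⟩ with hB4
  have g0 := base_gr ρ r W x h hρ
  have g1 := g0.switch (a := A) (b := B1) (c := A') (d := B4)
    ((bw_ne W (by decide) _ _).trans (if_pos (by decide)))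
    ((bw_ne W (by decide) _ _).trans (if_pos (by decide)))
    ((bw_same W _ _ _).trans hv0)
    ((bw_ne W (by decide) _ _).trans (if_neg (by decide)))
    (sg_ne (by decide) _ _)
    (by
      intro e
      apply hvv
      simpa [hA, hA'] using e.symm)
    (sg_ne (by decide) _ _) (sg_ne (by decide) _ _) (sg_ne (by decide) _ _)
    (sg_ne (by decide) _ _)
  have far : ∀ i j : Σ i, V i, j.1 = 2 ∨ j.1 = 3 → sx A B1 A' B4 i j = 0 := by
    rintro i ⟨j, b⟩ hj
    have e0 : j ≠ 0 := by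
      rcases hj with e | e <;> (simp only at e; rw [e]; decide)
    have e1 : j ≠ 1 := by
      rcases hj with e | e <;> (simp only at e; rw [e]; decide)
    have e4 : j ≠ 4 := by
      rcases hj with e | e <;> (simp only at e; rw [e]; decide)
    unfold sx
    rw [dl_sn e0, dl_sn e0, dl_sn e1, dl_sn e4]
    ring
  have hzw : sx A B1 A' B4 Q Q' = 0 := by
    have f1 : dl A Q = dl v w := dl_ss v w
    have f2 : dl A Q' = dl v w' := dl_ss v w'
    have f3 : dl A' Q = dl v' w := dl_ss v' w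
    have f4 : dl A' Q' = dl v' w' := dl_ss v' w'
    have f5 : dl B1 Q = 0 := dl_sn (by decide) _ _
    have f6 : dl B1 Q' = 0 := dl_sn (by decide) _ _
    have f7 : dl B4 Q = 0 := dl_sn (by decide) _ _
    have f8 : dl B4 Q' = 0 := dl_sn (by decide) _ _
    unfold sx
    rw [f1, f2, f3, f4, f5, f6, f7, f8]
    have z1 : dl v w * dl v' w' = 0 := by
      rcases eq_or_ne w v with rfl | e
      · rcases eq_or_ne w' v' with rfl | e'
        · rw [hw] at hv0
          exact absurd hv0 one_ne_zero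
        · rw [dl_ne e', mul_zero]
      · rw [dl_ne e, zero_mul]
    have z2 : dl v' w * dl v w' = 0 := by
      rcases eq_or_ne w v' with rfl | e
      · rcases eq_or_ne w' v with rfl | e'
        · rw [(h 0).symm, hw] at hv0
          exact absurd hv0 one_ne_zero
        · rw [dl_ne e', mul_zero]
      · rw [dl_ne e, zero_mul]
    linear_combination z1 + z2
  have g2 := g1.switch (a := Q) (b := Q') (c := B2) (d := B3)
    (by
      show bw W Q Q' + sx A B1 A' B4 Q Q' = 1
      rw [hzw, bw_same, hw, add_zero])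
    (by
      show bw W B2 B3 + sx A B1 A' B4 B2 B3 = 1
      rw [far _ _ (Or.inr rfl), bw_ne W (by decide), add_zero]
      exact if_pos (by decide))
    (by
      show bw W Q B2 + sx A B1 A' B4 Q B2 = 0
      rw [far _ _ (Or.inl rfl), bw_ne W (by decide), add_zero]
      exact if_neg (by decide))
    (by
      show bw W Q' B3 + sx A B1 A' B4 Q' B3 = 0
      rw [far _ _ (Or.inr rfl), bw_ne W (by decide), add_zero]
      exact if_neg (by decide))
    (by
      intro e
      apply hww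
      simpa [hQ, hQ'] using e)
    (sg_ne (by decide) _ _) (sg_ne (by decide) _ _) (sg_ne (by decide) _ _)
    (sg_ne (by decide) _ _) (sg_ne (by decide) _ _)
  -- the rows
  have row : ∀ (y : (Σ i, V i) → ℝ) (i : Fin 5) (a : V i),
      ∑ q, (bw W ⟨i, a⟩ q + sx A B1 A' B4 ⟨i, a⟩ q + sx Q Q' B2 B3 ⟨i, a⟩ q) * y q =
        (∑ b, W i a b * y ⟨i, b⟩ + ∑ j, adj i j * ∑ b, y ⟨j, b⟩) +
        ((dl A ⟨i, a⟩ - dl B4 ⟨i, a⟩) * (y A' - y B1) +
          (dl A' ⟨i, a⟩ - dl B1 ⟨i, a⟩) * (y A - y B4)) +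
        ((dl Q ⟨i, a⟩ - dl B3 ⟨i, a⟩) * (y B2 - y Q') +
          (dl B2 ⟨i, a⟩ - dl Q' ⟨i, a⟩) * (y Q - y B3)) := by
    intro y i a
    simp only [add_mul, Finset.sum_add_distrib]
    rw [sum_bw, sum_sx, sum_sx]
  have hnz : ∀ i (a : V i), x i a ≠ 0 := fun i => (h i).nz
  have hs0 : ∀ i, ∑ b, x i b = 0 := fun i => sum0 (h i) (r1 i)
  -- the kernel vector
  obtain ⟨k, k0, k1, k2, k3, k4⟩ : ∃ k : Fin 5 → ℝ, k 0 = 1 ∧ k 1 = x 0 v' / x 1 s1 ∧
      k 2 = x 0 w' / x 2 s2 ∧ k 3 = x 0 w / x 3 s3 ∧ k 4 = x 0 v / x 4 s4 :=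
    ⟨![1, x 0 v' / x 1 s1, x 0 w' / x 2 s2, x 0 w / x 3 s3, x 0 v / x 4 s4],
      rfl, rfl, rfl, rfl, rfl⟩
  have knz : ∀ i, k i ≠ 0 := by
    intro i
    match i with
    | 0 => rw [k0]; exact one_ne_zero
    | 1 => rw [k1]; exact div_ne_zero (hnz _ _) (hnz _ _)
    | 2 => rw [k2]; exact div_ne_zero (hnz _ _) (hnz _ _)
    | 3 => rw [k3]; exact div_ne_zero (hnz _ _) (hnz _ _)
    | 4 => rw [k4]; exact div_ne_zero (hnz _ _) (hnz _ _)
  refine ⟨_, fun p => k p.1 * x p.1 p.2, g2.zo, g2.symm, g2.diag, g2.deg, ?_, ?_, ?_⟩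
  · rintro ⟨i, a⟩
    exact mul_ne_zero (knz i) (hnz i a)
  · rintro ⟨i, a⟩
    rw [row]
    have e1 : ∑ b, W i a b * (k i * x i b) = 0 := by
      have : ∑ b, W i a b * (k i * x i b) = k i * ∑ b, W i a b * x i b := by
        rw [Finset.mul_sum]
        exact Finset.sum_congr rfl fun b _ => by ring
      rw [this, (h i).ker, mul_zero]
    have e2 : ∀ j, ∑ b, k j * x j b = 0 := fun j => by rw [← Finset.mul_sum, hs0, mul_zero]
    have e7 : ∑ j, adj i j * ∑ b, k j * x j b = 0 :=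
      Finset.sum_eq_zero fun j _ => by rw [e2, mul_zero]
    have e3 : k 0 * x 0 v' - k 1 * x 1 s1 = 0 := by
      rw [k0, k1]
      field_simp [hnz 1 s1]
      norm_num
    have e4 : k 0 * x 0 v - k 4 * x 4 s4 = 0 := by
      rw [k0, k4]
      field_simp [hnz 4 s4]
      norm_num
    have e5 : k 2 * x 2 s2 - k 0 * x 0 w' = 0 := by
      rw [k0, k2]
      field_simp [hnz 2 s2]
      norm_num
    have e6 : k 0 * x 0 w - k 3 * x 3 s3 = 0 := by
      rw [k0, k3]
      field_simp [hnz 3 s3]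
      norm_num
    show (∑ b, W i a b * (k i * x i b) + ∑ j, adj i j * ∑ b, k j * x j b) +
      ((dl A ⟨i, a⟩ - dl B4 ⟨i, a⟩) * (k 0 * x 0 v' - k 1 * x 1 s1) +
        (dl A' ⟨i, a⟩ - dl B1 ⟨i, a⟩) * (k 0 * x 0 v - k 4 * x 4 s4)) +
      ((dl Q ⟨i, a⟩ - dl B3 ⟨i, a⟩) * (k 2 * x 2 s2 - k 0 * x 0 w') +
        (dl B2 ⟨i, a⟩ - dl Q' ⟨i, a⟩) * (k 0 * x 0 w - k 3 * x 3 s3)) = 0
    rw [e1, e7, e3, e4, e5, e6]
    ring
  · intro y hy
    have hy' := fun (i : Fin 5) (a : V i) => (row y i a).symm.trans (hy ⟨i, a⟩)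
    have hA0 : ∀ (i : Fin 5) (a : V i), i ≠ 0 → dl A ⟨i, a⟩ = 0 := fun i a hi => dl_sn hi _ _
    have hA0' : ∀ (i : Fin 5) (a : V i), i ≠ 0 → dl A' ⟨i, a⟩ = 0 := fun i a hi => dl_sn hi _ _
    have hQ0 : ∀ (i : Fin 5) (a : V i), i ≠ 0 → dl Q ⟨i, a⟩ = 0 := fun i a hi => dl_sn hi _ _
    have hQ0' : ∀ (i : Fin 5) (a : V i), i ≠ 0 → dl Q' ⟨i, a⟩ = 0 := fun i a hi => dl_sn hi _ _
    have h10 : ∀ (i : Fin 5) (a : V i), i ≠ 1 → dl B1 ⟨i, a⟩ = 0 := fun i a hi => dl_sn hi _ _
    have h20 : ∀ (i : Fin 5) (a : V i), i ≠ 2 → dl B2 ⟨i, a⟩ = 0 := fun i a hi => dl_sn hi _ _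
    have h30 : ∀ (i : Fin 5) (a : V i), i ≠ 3 → dl B3 ⟨i, a⟩ = 0 := fun i a hi => dl_sn hi _ _
    have h40 : ∀ (i : Fin 5) (a : V i), i ≠ 4 → dl B4 ⟨i, a⟩ = 0 := fun i a hi => dl_sn hi _ _
    have h11 : ∀ a : V 1, dl B1 ⟨1, a⟩ = dl s1 a := fun a => dl_ss _ _
    have h22 : ∀ a : V 2, dl B2 ⟨2, a⟩ = dl s2 a := fun a => dl_ss _ _
    have h33 : ∀ a : V 3, dl B3 ⟨3, a⟩ = dl s3 a := fun a => dl_ss _ _
    have h44 : ∀ a : V 4, dl B4 ⟨4, a⟩ = dl s4 a := fun a => dl_ss _ _
    have q1 : -(y A - y B4) = 0 :=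
      pair (h 1) (r1 1) (fun b => y ⟨1, b⟩) (∑ j, adj 1 j * ∑ b, y ⟨j, b⟩) _ s1 (by
        intro a
        have e := hy' 1 a
        rw [hA0 1 a (by decide), hA0' 1 a (by decide), hQ0 1 a (by decide), hQ0' 1 a (by decide),
          h11, h20 1 a (by decide), h30 1 a (by decide), h40 1 a (by decide)] at e
        linear_combination e)
    have q4 : -(y A' - y B1) = 0 :=
      pair (h 4) (r1 4) (fun b => y ⟨4, b⟩) (∑ j, adj 4 j * ∑ b, y ⟨j, b⟩) _ s4 (by
        intro a
        have e := hy' 4 a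
        rw [hA0 4 a (by decide), hA0' 4 a (by decide), hQ0 4 a (by decide), hQ0' 4 a (by decide),
          h10 4 a (by decide), h20 4 a (by decide), h30 4 a (by decide), h44] at e
        linear_combination e)
    have q2 : y Q - y B3 = 0 :=
      pair (h 2) (r1 2) (fun b => y ⟨2, b⟩) (∑ j, adj 2 j * ∑ b, y ⟨j, b⟩) _ s2 (by
        intro a
        have e := hy' 2 a
        rw [hA0 2 a (by decide), hA0' 2 a (by decide), hQ0 2 a (by decide), hQ0' 2 a (by decide),
          h10 2 a (by decide), h22, h30 2 a (by decide), h40 2 a (by decide)] at e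
        linear_combination e)
    have q3 : -(y B2 - y Q') = 0 :=
      pair (h 3) (r1 3) (fun b => y ⟨3, b⟩) (∑ j, adj 3 j * ∑ b, y ⟨j, b⟩) _ s3 (by
        intro a
        have e := hy' 3 a
        rw [hA0 3 a (by decide), hA0' 3 a (by decide), hQ0 3 a (by decide), hQ0' 3 a (by decide),
          h10 3 a (by decide), h20 3 a (by decide), h33, h40 3 a (by decide)] at e
        linear_combination e)
    rw [neg_eq_zero] at q1 q4 q3
    have hb : ∀ (i : Fin 5) (a : V i),
        ∑ b, W i a b * y ⟨i, b⟩ + ∑ j, adj i j * ∑ b, y ⟨j, b⟩ = 0 := by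
      intro i a
      have e := hy' i a
      rw [q1, q2, q3, q4] at e
      linear_combination e
    have hσ : ∀ i, ∑ b, y ⟨i, b⟩ = 0 := by
      refine penta (fun i => (r i : ℝ) / Fintype.card (V i)) (fun i => ∑ b, y ⟨i, b⟩)
        (fun i => by positivity) (fun i => ?_) (fun i => ?_)
      · have h1 : (0 : ℝ) < Fintype.card (V i) := by exact_mod_cast hcard i
        rw [div_lt_one h1]
        have := rn i
        exact_mod_cast (by omega : r i < Fintype.card (V i))
      · have h1 : (Fintype.card (V i) : ℝ) ≠ 0 := by exact_mod_cast (hcard i).ne'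
        have h2 := tot (h i) (fun b => y ⟨i, b⟩)
        have h3 : ∑ a : V i, (∑ b, W i a b * y ⟨i, b⟩ + ∑ j, adj i j * ∑ b, y ⟨j, b⟩) = 0 :=
          Finset.sum_eq_zero fun a _ => hb i a
        rw [Finset.sum_add_distrib, h2, Finset.sum_const, Finset.card_univ, nsmul_eq_mul] at h3
        have h4 : (Fintype.card (V i) : ℝ) * ((r i : ℝ) / Fintype.card (V i) * ∑ b, y ⟨i, b⟩ +
            ∑ j, adj i j * ∑ b, y ⟨j, b⟩) = 0 := by
          rw [mul_add, ← mul_assoc, mul_div_cancel₀ _ h1]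
          exact h3
        exact (mul_eq_zero.1 h4).resolve_left h1
    have hc : ∀ i, ∃ c : ℝ, ∀ a, y ⟨i, a⟩ = c * x i a := by
      intro i
      refine (h i).uniq (fun a => y ⟨i, a⟩) fun a => ?_
      have e := hb i a
      rw [Finset.sum_eq_zero (s := (Finset.univ : Finset (Fin 5))) fun j _ => by
        rw [hσ j, mul_zero], add_zero] at e
      exact e
    choose c hc using hc
    have hck : ∀ i, c i = c 0 * k i := by
      intro i
      match i with
      | 0 => rw [k0, mul_one]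
      | 1 =>
        have e : c 0 * x 0 v' - c 1 * x 1 s1 = 0 := by
          rw [← hc 0 v', ← hc 1 s1]
          exact q4
        rw [k1]
        field_simp [hnz 1 s1]
        linear_combination -e
      | 2 =>
        have e : c 2 * x 2 s2 - c 0 * x 0 w' = 0 := by
          rw [← hc 0 w', ← hc 2 s2]
          exact q3
        rw [k2]
        field_simp [hnz 2 s2]
        linear_combination e
      | 3 =>
        have e : c 0 * x 0 w - c 3 * x 3 s3 = 0 := by
          rw [← hc 0 w, ← hc 3 s3]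
          exact q2
        rw [k3]
        field_simp [hnz 3 s3]
        linear_combination -e
      | 4 =>
        have e : c 0 * x 0 v - c 4 * x 4 s4 = 0 := by
          rw [← hc 0 v, ← hc 4 s4]
          exact q1
        rw [k4]
        field_simp [hnz 4 s4]
        linear_combination -e
    refine ⟨c 0, ?_⟩
    rintro ⟨i, a⟩
    rw [hc i a, hck i]
    ring

end main

/-- Module C5. -/
theorem st_C5 : Pool.Agent.J6H68.Nut.StC5 := by
  intro ρ r1 r2 r3 r4 r5 n1 n2 n3 n4 n5 g1 g2 g3 g4 g5 p1 p2 p3 p4 p5 l1 l2 l3 l4 l5 e1 e2 e3 e4 e5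
  obtain ⟨V1, F1, W1, x1, h1, c1⟩ := g1
  obtain ⟨V2, F2, W2, x2, h2, c2⟩ := g2
  obtain ⟨V3, F3, W3, x3, h3, c3⟩ := g3
  obtain ⟨V4, F4, W4, x4, h4, c4⟩ := g4
  obtain ⟨V5, F5, W5, x5, h5, c5⟩ := g5
  have hg : ∀ i : Fin 5, ∃ (V : Type) (_ : Fintype V) (W : V → V → ℝ) (x : V → ℝ),
      NW V (![r1, r2, r3, r4, r5] i) W x ∧ Fintype.card V = ![n1, n2, n3, n4, n5] i := by
    intro i
    match i with
    | 0 => exact ⟨V1, F1, W1, x1, h1, c1⟩
    | 1 => exact ⟨V2, F2, W2, x2, h2, c2⟩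
    | 2 => exact ⟨V3, F3, W3, x3, h3, c3⟩
    | 3 => exact ⟨V4, F4, W4, x4, h4, c4⟩
    | 4 => exact ⟨V5, F5, W5, x5, h5, c5⟩
  choose V F W x h c using hg
  obtain ⟨W', x', hN⟩ := five ρ ![r1, r2, r3, r4, r5] W x h
    (by
      intro i
      match i with
      | 0 => exact p1
      | 1 => exact p2
      | 2 => exact p3
      | 3 => exact p4
      | 4 => exact p5)
    (by
      intro i
      rw [c i]
      match i with
      | 0 => exact l1
      | 1 => exact l2
      | 2 => exact l3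
      | 3 => exact l4
      | 4 => exact l5)
    (by
      intro i
      simp only [c]
      match i with
      | 0 =>
        rw [adj0 (fun j => ((![n1, n2, n3, n4, n5] j : ℕ) : ℝ))]
        show (r1 : ℝ) + ((n5 : ℝ) + n2) = ρ
        rw [← e1]
        push_cast
        ring
      | 1 =>
        rw [adj1 (fun j => ((![n1, n2, n3, n4, n5] j : ℕ) : ℝ))]
        show (r2 : ℝ) + ((n1 : ℝ) + n3) = ρ
        rw [← e2]
        push_cast
        ring
      | 2 =>
        rw [adj2 (fun j => ((![n1, n2, n3, n4, n5] j : ℕ) : ℝ))]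
        show (r3 : ℝ) + ((n2 : ℝ) + n4) = ρ
        rw [← e3]
        push_cast
        ring
      | 3 =>
        rw [adj3 (fun j => ((![n1, n2, n3, n4, n5] j : ℕ) : ℝ))]
        show (r4 : ℝ) + ((n3 : ℝ) + n5) = ρ
        rw [← e4]
        push_cast
        ring
      | 4 =>
        rw [adj4 (fun j => ((![n1, n2, n3, n4, n5] j : ℕ) : ℝ))]
        show (r5 : ℝ) + ((n4 : ℝ) + n1) = ρ
        rw [← e5]
        push_cast
        ring)
  refine ⟨Σ i, V i, inferInstance, W', x', hN, ?_⟩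
  rw [Fintype.card_sigma, Fin.sum_univ_five, c, c, c, c, c]
  rfl

end Pool.Agent.J6H69.Nut
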